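import Mathlib
import Pool.Agent.helper7.DF.Spec2

/-! Project DF, row CNS (helper76, second hand of helper26's row). -/

set_option autoImplicit false

open Finset

namespace Pool.Agent.DFO

private lemma CNS_smooth {n k : ℕ} {a b : ℕ → ℕ} (hG : Good n k a b) {j : ℕ} (hj : j ∈ Icc 1 k) (hb : b j = 1)
    {p : ℕ} (hp : p.Prime) (hd : p ∣ n + j) : p ≤ k := by
  have h1 := hG.eq j hj
  rw [hb, mul_one] at h1
  have h2 : a j ∣ k.factorial := by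
    rw [← hG.prod]
    exact dvd_prod_of_mem a hj
  rw [h1] at hd
  exact (hp.dvd_factorial).1 (hd.trans h2)

private lemma CNS_growth (δ : ℝ) (hδ : 0 < δ) :
    ∃ X₁ : ℕ, ∀ X : ℕ, X₁ ≤ X → (Real.log X ^ 3) * (Real.log X ^ 3) ≤ (X : ℝ) ^ δ := by
  have h := (isLittleO_log_rpow_rpow_atTop 6 hδ)
  have h2 := h.bound (c := 1) one_pos
  have h3 := (tendsto_natCast_atTop_atTop (R := ℝ)).eventually h2
  obtain ⟨X₁, hX₁⟩ := Filter.eventually_atTop.1 h3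
  refine ⟨max X₁ 1, fun X hX => ?_⟩
  have h4 := hX₁ X (le_trans (le_max_left _ _) hX)
  have h1X : (1 : ℝ) ≤ X := by exact_mod_cast le_trans (le_max_right _ _) hX
  have h0 : 0 ≤ Real.log (X : ℝ) := Real.log_nonneg h1X
  rw [one_mul, Real.norm_of_nonneg (Real.rpow_nonneg h0 _),
    Real.norm_of_nonneg (Real.rpow_nonneg (by linarith) _)] at h4
  have h5 : Real.log (X : ℝ) ^ (6 : ℝ) = Real.log X ^ 3 * Real.log X ^ 3 := by
    rw [← pow_add]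
    have := Real.rpow_natCast (Real.log (X : ℝ)) 6
    exact_mod_cast this
  rw [← h5]
  exact h4

private lemma CNS_finite (X : ℕ) (P : ℕ × ℕ → Prop) :
    {z : ℕ × ℕ | 1 ≤ z.2 ∧ z.2 ≤ z.1 ∧ z.1 ≤ X ∧ P z} ⊆ ((Icc 1 X ×ˢ Icc 1 X : Finset (ℕ × ℕ)) : Set (ℕ × ℕ)) := by
  rintro ⟨n, k⟩ ⟨h1, h2, h3, -⟩
  simp only [coe_product, coe_Icc, Set.mem_prod, Set.mem_Icc]
  exact ⟨⟨h1.trans h2, h3⟩, ⟨h1, h2.trans h3⟩⟩

theorem CNS (hRNK : RNK_stmt) : CNS_stmt := by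
  classical
  intro ε hε
  obtain ⟨X₀, hX₀⟩ := hRNK (ε / 2) (by positivity)
  obtain ⟨X₁, hX₁⟩ := CNS_growth (ε / 2) (by positivity)
  set M : ℕ := max (max X₀ X₁) 1 with hM
  refine ⟨(M : ℝ) * M + 1, fun X => ?_⟩
  rcases Nat.eq_zero_or_pos X with rfl | hXpos
  · have hE : {z : ℕ × ℕ | 1 ≤ z.2 ∧ z.2 ≤ z.1 ∧ z.1 ≤ 0 ∧ (z.2 : ℝ) < Real.log ((0 : ℕ) : ℝ) ^ 3 ∧
        ∃ a b : ℕ → ℕ, Good z.1 z.2 a b ∧ ∃ j ∈ Icc 1 z.2, b j = 1} = ∅ := by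
      ext z
      simp only [Set.mem_ofPred_eq, Set.mem_empty_iff_false, iff_false]
      rintro ⟨h1, h2, h3, -⟩
      omega
    rw [hE, Set.ncard_empty, Nat.cast_zero]
    positivity
  have hX1 : (1 : ℝ) ≤ X := by exact_mod_cast hXpos
  have hpow1 : (1 : ℝ) ≤ (X : ℝ) ^ (2 / 3 + ε) := Real.one_le_rpow hX1 (by positivity)
  set S : Set (ℕ × ℕ) := {z : ℕ × ℕ | 1 ≤ z.2 ∧ z.2 ≤ z.1 ∧ z.1 ≤ X ∧ (z.2 : ℝ) < Real.log X ^ 3 ∧
        ∃ a b : ℕ → ℕ, Good z.1 z.2 a b ∧ ∃ j ∈ Icc 1 z.2, b j = 1} with hS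
  by_cases hc : X < M
  · have h1 : S.ncard ≤ X * X := by
      have h2 := Set.ncard_le_ncard (CNS_finite X (fun z => (z.2 : ℝ) < Real.log X ^ 3 ∧
        ∃ a b : ℕ → ℕ, Good z.1 z.2 a b ∧ ∃ j ∈ Icc 1 z.2, b j = 1)) (Finset.finite_toSet _)
      rw [Set.ncard_coe_finset, card_product, Nat.card_Icc, Nat.add_sub_cancel] at h2
      exact h2
    have h3 : (S.ncard : ℝ) ≤ (X : ℝ) * X := by exact_mod_cast h1
    have h4 : (X : ℝ) ≤ M := by exact_mod_cast hc.le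
    have h5 : (X : ℝ) * X ≤ (M : ℝ) * M := mul_le_mul h4 h4 (by positivity) (by positivity)
    calc (S.ncard : ℝ) ≤ (M : ℝ) * M + 1 := by linarith
      _ ≤ ((M : ℝ) * M + 1) * (X : ℝ) ^ (2 / 3 + ε) := le_mul_of_one_le_right (by positivity) hpow1
  · push Not at hc
    have hc0 : X₀ ≤ X := ((le_max_left _ _).trans (le_max_left _ _)).trans hc
    have hc1 : X₁ ≤ X := ((le_max_right _ _).trans (le_max_left _ _)).trans hc
    have hL0 : 0 ≤ Real.log (X : ℝ) := Real.log_nonneg hX1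
    have hL3 : 0 ≤ Real.log (X : ℝ) ^ 3 := by positivity
    set y : ℕ := ⌊Real.log (X : ℝ) ^ 3⌋₊ with hy
    have hyL : (y : ℝ) ≤ Real.log (X : ℝ) ^ 3 := Nat.floor_le hL3
    set E : Finset ℕ := {m ∈ Icc 1 (2 * X) | ∀ p : ℕ, p.Prime → p ∣ m → p ≤ y} with hE
    have hEc : (#E : ℝ) ≤ (X : ℝ) ^ (2 / 3 + ε / 2) := by
      refine hX₀ X hc0 y hyL E ?_
      intro m hm
      rw [hE, mem_filter, mem_Icc] at hm
      exact ⟨hm.1.1, hm.1.2, hm.2⟩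
    have hsub : S ⊆ ((((Icc 1 y ×ˢ Icc 1 y) ×ˢ E).image (fun t : (ℕ × ℕ) × ℕ => (t.2 - t.1.2, t.1.1)) : Finset (ℕ × ℕ)) : Set (ℕ × ℕ)) := by
      rintro ⟨n, k⟩ ⟨h1, h2, h3, h4, a, b, hG, j, hj, hb⟩
      simp only at h1 h2 h3 h4 hG hj
      have hk : k ≤ y := Nat.le_floor h4.le
      have hj' := mem_Icc.1 hj
      rw [mem_coe, mem_image]
      refine ⟨((k, j), n + j), ?_, ?_⟩
      · rw [mem_product, mem_product]
        refine ⟨⟨mem_Icc.2 ⟨h1, hk⟩, mem_Icc.2 ⟨hj'.1, hj'.2.trans hk⟩⟩, ?_⟩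
        rw [hE, mem_filter, mem_Icc]
        refine ⟨⟨?_, ?_⟩, ?_⟩
        · change 1 ≤ n + j
          omega
        · change n + j ≤ 2 * X
          omega
        · intro p hp hd
          exact (CNS_smooth hG hj hb hp hd).trans hk
      · simp
    have hcard : S.ncard ≤ (y * y) * #E := by
      have h2 := Set.ncard_le_ncard hsub (Finset.finite_toSet _)
      rw [Set.ncard_coe_finset] at h2
      refine h2.trans (card_image_le.trans ?_)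
      rw [card_product, card_product, Nat.card_Icc, Nat.add_sub_cancel]
    have h6 : (S.ncard : ℝ) ≤ ((y : ℝ) * y) * #E := by exact_mod_cast hcard
    have h7 : (y : ℝ) * y ≤ (X : ℝ) ^ (ε / 2) :=
      (mul_le_mul hyL hyL (by positivity) hL3).trans (hX₁ X hc1)
    have h8 : ((y : ℝ) * y) * #E ≤ (X : ℝ) ^ (ε / 2) * (X : ℝ) ^ (2 / 3 + ε / 2) :=
      mul_le_mul h7 hEc (by positivity) (by positivity)
    have h9 : (X : ℝ) ^ (ε / 2) * (X : ℝ) ^ (2 / 3 + ε / 2) = (X : ℝ) ^ (2 / 3 + ε) := by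
      rw [← Real.rpow_add (by linarith)]
      ring_nf
    calc (S.ncard : ℝ) ≤ 1 * (X : ℝ) ^ (2 / 3 + ε) := by linarith
      _ ≤ ((M : ℝ) * M + 1) * (X : ℝ) ^ (2 / 3 + ε) := by
        refine mul_le_mul_of_nonneg_right ?_ (by positivity)
        have : (0 : ℝ) ≤ (M : ℝ) * M := by positivity
        linarith

end Pool.Agent.DFO
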